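import Pool.Agent.H42R3.Indep2

/-!
# Countably many group topologies: the combinatorial core
-/

set_option autoImplicit false

namespace Pool.Agent.Y586.CT

open Set Pool.Agent.H42R3.Indep

variable {G : Type*} [AddCommGroup G]

/-- finitely many syndetic sets: the common differences are syndetic -/
theorem inter_fin (n : ℕ) (A : ℕ → Set G) (hA : ∀ i, i < n → Synd (A i)) :
    Synd {z : G | ∀ i, i < n → z ∈ Dif (A i)} := by
  classical
  choose! F hF hFA using hA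
  let p : (Fin n → G) → G := fun c =>
    if h : ∃ z : G, ∀ i : Fin n, ∃ a ∈ A i, z = c i + a then h.choose else 0
  refine ⟨p '' (Set.pi Set.univ fun i : Fin n => F i), ?_, fun x => ?_⟩
  · have hfin : {c : Fin n → G | ∀ i : Fin n, c i ∈ F i}.Finite :=
      Set.Finite.pi' fun i => hF i i.2
    have hsub : (Set.pi Set.univ fun i : Fin n => F i) ⊆
        {c : Fin n → G | ∀ i : Fin n, c i ∈ F i} := fun c hc i => hc i (Set.mem_univ i)
    exact (hfin.subset hsub).image p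
  · choose! f hf a ha e using fun (i : ℕ) (hi : i < n) => hFA i hi x
    have hex : ∃ z : G, ∀ i : Fin n, ∃ b ∈ A i, z = (fun i : Fin n => f i) i + b :=
      ⟨x, fun i => ⟨a i, ha i i.2, e i i.2⟩⟩
    have hp : p (fun i : Fin n => f i) = hex.choose := by
      simp only [p]; rw [dif_pos hex]
    have hs := hex.choose_spec
    rw [← hp] at hs
    refine ⟨p (fun i : Fin n => f i), ⟨_, fun i _ => hf i i.2, rfl⟩,
      x - p (fun i : Fin n => f i), fun i hi => ?_, by abel⟩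
    obtain ⟨b, hb, e'⟩ := hs ⟨i, hi⟩
    refine ⟨a i, ha i hi, b, hb, ?_⟩
    have e1 : p (fun i : Fin n => f i) = f i + b := e'
    rw [e1]
    nth_rewrite 1 [e i hi]
    abel

section Main

variable (H : ℕ → AddSubgroup G) (N : ℕ → Set (Set G))

/-- mode W -/
def WM (i : ℕ) : Prop := ∃ k, ∀ U ∈ N i, Synd (Sm (H k : Set G) U)

variable {H N}

theorem step (hmono : Monotone H) (hns : ∀ n, ¬ Synd (H n : Set G))
    (hN : ∀ i, NB (N i))
    (hcl : ∀ i n x, x ∉ H (n + 1) → ∃ U ∈ N i, ∀ u ∈ U, ∀ u' ∈ U, x + u - u' ∉ H n)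
    (k : ℕ → ℕ) (hk : ∀ i, WM H N i → ∀ U ∈ N i, Synd (Sm (H (k i) : Set G) U))
    (V : ℕ → ℕ → Set G)
    (hV : ∀ i, ¬ WM H N i → ∀ m, V i m ∈ N i ∧ ¬ Synd (Sm (H m : Set G) (Dif (V i m))))
    (n : ℕ) (x : G) (U : ℕ → Set G) (hU : ∀ i, U i ∈ N i) :
    ∃ (x' : G) (U' : ℕ → Set G), (∀ i, U' i ∈ N i) ∧
      (∀ i, i ≤ n → WM H N i → ∀ h ∈ H (k i), ∀ u ∈ U' i, ∃ h' ∈ H (k i), ∃ u' ∈ U i,
        x' + h + u = x + h' + u') ∧
      (∀ i, i ≤ n → WM H N i → ∀ h ∈ H (k i), ∀ u ∈ U' i, ∀ g ∈ H n, ∀ u' ∈ U' i,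
        x' + h + u ≠ g + u') ∧
      (∀ i, i ≤ n → ¬ WM H N i → ∀ m ≤ n, ∀ g ∈ H m, ∀ v ∈ V i m, x' ≠ g + v) := by
  classical
  choose T hT1 hT2 using fun i => (hN i).half (U i) (hU i)
  set A : ℕ → Set G := fun i => if WM H N i then Sm (H (k i) : Set G) (T i) else Set.univ with hA
  have hAs : ∀ i, i < n + 1 → Synd (A i) := by
    intro i _
    by_cases hi : WM H N i
    · simp only [hA, if_pos hi]; exact hk i hi _ (hT1 i)
    · simp only [hA, if_neg hi]; exact synd_univ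
  obtain ⟨F, hF, hFO⟩ := inter_fin (n + 1) A hAs
  set M := max n ((Finset.range (n + 1)).sup k) with hM
  let B : Option (ℕ × ℕ) → Set G := fun o =>
    match o with
    | none => (H (M + 1) : Set G)
    | some (i, m) => {z | ¬ WM H N i ∧ z ∈ Sm (H m : Set G) (V i m)}
  have claim : ∃ o ∈ {z : G | ∀ i, i < n + 1 → z ∈ Dif (A i)}, x + o ∉ H (M + 1) ∧
      ∀ i, i ≤ n → ¬ WM H N i → ∀ m ≤ n, x + o ∉ Sm (H m : Set G) (V i m) := by
    by_contra hcon
    push Not at hcon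
    obtain ⟨j, hj, hs⟩ := cover
      (Finset.insertNone ((Finset.range (n + 1)) ×ˢ Finset.range (n + 1))) B
      (fun _ => (fun f => f - x) '' F) (fun _ => hF.image _) (by
        intro y
        obtain ⟨f, hf, o, ho, e⟩ := hFO y
        by_cases h1 : x + o ∈ H (M + 1)
        · refine ⟨none, by simp, f - x, ⟨f, hf, rfl⟩, x + o, h1, ?_⟩
          rw [e]; abel
        · obtain ⟨i, hin, hi, m, hm, hz⟩ := hcon o ho h1
          refine ⟨some (i, m), ?_, f - x, ⟨f, hf, rfl⟩, x + o, ⟨hi, hz⟩, ?_⟩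
          · simp; omega
          · rw [e]; abel)
    rcases j with _ | ⟨i, m⟩
    · apply hns (M + 1)
      refine hs.mono ?_
      rintro z ⟨a, ha, b, hb, rfl⟩
      exact (H (M + 1)).sub_mem ha hb
    · by_cases hi : WM H N i
      · apply not_synd_empty (G := G)
        refine hs.mono ?_
        rintro z ⟨a, ha, _⟩
        exact (ha.1 hi).elim
      · apply (hV i hi m).2
        refine hs.mono ?_
        rintro z ⟨a, ⟨_, g, hg, v, hv, rfl⟩, b, ⟨_, g', hg', v', hv', rfl⟩, rfl⟩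
        refine ⟨g - g', (H m).sub_mem hg hg', v - v', ⟨v, hv, v', hv', rfl⟩, ?_⟩
        abel
  obtain ⟨o, ho, h1, h2⟩ := claim
  choose U1 hU1 hU1' using fun i => hcl i M (x + o) h1
  refine ⟨x + o, fun i => T i ∩ U1 i, fun i => (hN i).inter _ (hT1 i) _ (hU1 i), ?_, ?_, ?_⟩
  · intro i hin hi h hh u hu
    have hoi : o ∈ Dif (A i) := ho i (by omega)
    simp only [hA, if_pos hi] at hoi
    obtain ⟨_, ⟨g1, hg1, t1, ht1, rfl⟩, _, ⟨g2, hg2, t2, ht2, rfl⟩, e⟩ := hoi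
    refine ⟨g1 - g2 + h, (H (k i)).add_mem ((H (k i)).sub_mem hg1 hg2) hh, t1 - t2 + u,
      hT2 i t1 ht1 t2 ht2 u hu.1, ?_⟩
    rw [e]; abel
  · intro i hin hi h hh u hu g hg u' hu' e
    apply hU1' i u hu.2 u' hu'.2
    have : x + o + u - u' = g - h := by
      have : x + o + u - u' = (x + o + h + u) - h - u' := by abel
      rw [this, e]; abel
    rw [this]
    have hki : k i ≤ M := le_trans (Finset.le_sup (f := k) (by simp; omega)) (le_max_right _ _)
    exact (H M).sub_mem (hmono (le_max_left _ _) hg) (hmono hki hh)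
  · intro i hin hi m hm g hg v hv e
    exact h2 i hin hi m hm ⟨g, hg, v, hv, e⟩

theorem exists_seq (hmono : Monotone H) (hcov : ∀ x, ∃ n, x ∈ H n)
    (hns : ∀ n, ¬ Synd (H n : Set G))
    (hN : ∀ i, NB (N i))
    (hcl : ∀ i n x, x ∉ H (n + 1) → ∃ U ∈ N i, ∀ u ∈ U, ∀ u' ∈ U, x + u - u' ∉ H n) :
    ∃ x : ℕ → G, ∀ i y, ∃ U ∈ N i, ∃ m, ∀ n ≥ m, x n - y ∉ U := by
  classical
  have hk : ∀ i, ∃ k, WM H N i → ∀ U ∈ N i, Synd (Sm (H k : Set G) U) := by
    intro i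
    by_cases hi : WM H N i
    · obtain ⟨k, hk⟩ := hi
      exact ⟨k, fun _ => hk⟩
    · exact ⟨0, fun h => (hi h).elim⟩
  choose k hk using hk
  have hV : ∀ i m, ∃ V : Set G, ¬ WM H N i → V ∈ N i ∧
      ¬ Synd (Sm (H m : Set G) (Dif V)) := by
    intro i m
    by_cases hi : WM H N i
    · exact ⟨∅, fun h => (h hi).elim⟩
    · have : ∃ U ∈ N i, ¬ Synd (Sm (H m : Set G) U) := by
        by_contra hcon
        push Not at hcon
        exact hi ⟨m, hcon⟩
      obtain ⟨U, hU, hS⟩ := this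
      obtain ⟨V, hV, hVU⟩ := (hN i).half U hU
      refine ⟨V, fun _ => ⟨hV, fun h => hS (h.mono ?_)⟩⟩
      rintro z ⟨a, ha, _, ⟨v, hv, v', hv', rfl⟩, rfl⟩
      refine ⟨a, ha, v - v', ?_, rfl⟩
      have := hVU v hv v' hv' 0 ((hN i).zero_mem V hV)
      simpa using this
  choose V hV using hV
  have st := step hmono hns hN hcl k hk V (fun i hi m => hV i m hi)
  -- states
  let S := {p : G × (ℕ → Set G) // ∀ i, p.2 i ∈ N i}
  have st' : ∀ (n : ℕ) (p : S), ∃ q : S,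
      (∀ i, i ≤ n → WM H N i → ∀ h ∈ H (k i), ∀ u ∈ q.1.2 i, ∃ h' ∈ H (k i), ∃ u' ∈ p.1.2 i,
        q.1.1 + h + u = p.1.1 + h' + u') ∧
      (∀ i, i ≤ n → WM H N i → ∀ h ∈ H (k i), ∀ u ∈ q.1.2 i, ∀ g ∈ H n, ∀ u' ∈ q.1.2 i,
        q.1.1 + h + u ≠ g + u') ∧
      (∀ i, i ≤ n → ¬ WM H N i → ∀ m ≤ n, ∀ g ∈ H m, ∀ v ∈ V i m, q.1.1 ≠ g + v) := by
    intro n p
    obtain ⟨x', U', h0, h1, h2, h3⟩ := st n p.1.1 p.1.2 p.2
    exact ⟨⟨(x', U'), h0⟩, h1, h2, h3⟩
  choose nx hnx1 hnx2 hnx3 using st'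
  let σ : ℕ → S := fun n => Nat.rec ⟨(0, fun _ => Set.univ), fun i => (hN i).univ_mem⟩
    (fun n p => nx n p) n
  have hσ : ∀ n, σ (n + 1) = nx n (σ n) := fun n => rfl
  refine ⟨fun n => (σ (n + 1)).1.1, ?_⟩
  intro i y
  obtain ⟨m0, hm0⟩ := hcov y
  obtain ⟨m, hm, him⟩ : ∃ m, y ∈ H m ∧ i ≤ m :=
    ⟨max m0 i, hmono (le_max_left _ _) hm0, le_max_right _ _⟩
  by_cases hi : WM H N i
  · refine ⟨(σ (m + 1)).1.2 i, (σ (m + 1)).2 i, m, ?_⟩
    have ind : ∀ n ≥ m, ∀ h ∈ H (k i), ∀ u ∈ (σ (n + 1)).1.2 i, ∃ h' ∈ H (k i),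
        ∃ u' ∈ (σ (m + 1)).1.2 i, (σ (n + 1)).1.1 + h + u = (σ (m + 1)).1.1 + h' + u' := by
      intro n hn
      induction n, hn using Nat.le_induction with
      | base => intro h hh u hu; exact ⟨h, hh, u, hu, rfl⟩
      | succ n hn ih =>
        intro h hh u hu
        rw [hσ (n + 1)] at hu ⊢
        obtain ⟨h', hh', u', hu', e⟩ :=
          hnx1 (n + 1) (σ (n + 1)) i (by omega) hi h hh u hu
        obtain ⟨h'', hh'', u'', hu'', e'⟩ := ih h' hh' u' hu'
        exact ⟨h'', hh'', u'', hu'', e.trans e'⟩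
    intro n hn hcon
    obtain ⟨h', hh', u', hu', e⟩ := ind n hn 0 (H (k i)).zero_mem 0
      ((hN i).zero_mem _ ((σ (n + 1)).2 i))
    have h2 := hnx2 m (σ m) i him hi h' hh' u' (by rw [← hσ m]; exact hu') y hm
      ((σ (n + 1)).1.1 - y) (by rw [← hσ m]; exact hcon)
    apply h2
    rw [← hσ m, ← e]; abel
  · refine ⟨V i m, (hV i m hi).1, m, ?_⟩
    intro n hn hcon
    have h3 := hnx3 n (σ n) i (by omega) hi m hn y hm _ hcon
    apply h3
    rw [← hσ n]; abel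

end Main

open Cardinal Topology

universe u

variable {G : Type u} [AddCommGroup G]

/-- the chain of subgroups -/
def chain (t : ℕ → TopologicalSpace G) (S : ℕ → Set G) : ℕ → AddSubgroup G
  | 0 => ⊥
  | n + 1 => AddSubgroup.closure ((chain t S n : Set G) ∪ S n ∪
      ⋃ i, @closure G (t i) (chain t S n))

theorem chain_mono (t : ℕ → TopologicalSpace G) (S : ℕ → Set G) : Monotone (chain t S) := by
  refine monotone_nat_of_le_succ fun n => ?_
  intro a ha
  exact AddSubgroup.subset_closure (Or.inl (Or.inl ha))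

theorem chain_cov (t : ℕ → TopologicalSpace G) (S : ℕ → Set G) (hS : ∀ x, ∃ n, x ∈ S n)
    (x : G) : ∃ n, x ∈ chain t S n := by
  obtain ⟨n, hn⟩ := hS x
  exact ⟨n + 1, AddSubgroup.subset_closure (Or.inl (Or.inr hn))⟩

theorem chain_cl (t : ℕ → TopologicalSpace G) (S : ℕ → Set G) (i : ℕ) (n : ℕ) (x : G)
    (hx : x ∉ chain t S (n + 1)) : x ∉ @closure G (t i) (chain t S n) := by
  intro h
  apply hx
  exact AddSubgroup.subset_closure (Or.inr (mem_iUnion.2 ⟨i, h⟩))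

theorem chain_card (hκ : IsStrongLimit #G) (hκ' : ℵ₀ < #G)
    (t : ℕ → TopologicalSpace G) (ht : ∀ i, @T2Space G (t i))
    (S : ℕ → Set G) (hS : ∀ n, #(S n) < #G) (n : ℕ) : #(chain t S n) < #G := by
  induction n with
  | zero =>
    have : #(chain t S 0) = 1 := by
      change #((⊥ : AddSubgroup G)) = 1
      simp
    rw [this]
    exact one_lt_aleph0.trans hκ'
  | succ n ih =>
    have hinf : ℵ₀ ≤ #G := hκ'.le
    have hb : ∀ i, #(@closure G (t i) (chain t S n)) ≤ 2 ^ ((2 : Cardinal.{u}) ^ #(chain t S n)) := by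
      intro i
      let := t i
      have := ht i
      exact mk_closure_le (X := G) (chain t S n : Set G)
    have hlt : (2 : Cardinal.{u}) ^ ((2 : Cardinal.{u}) ^ #(chain t S n)) < #G :=
      hκ.isStrongPrelimit (hκ.isStrongPrelimit ih)
    have hU : #(⋃ i, @closure G (t i) (chain t S n) : Set G) < #G := by
      have h1 : #(⋃ i : ULift.{u} ℕ, @closure G (t i.down) (chain t S n) : Set G) ≤
          #(ULift.{u} ℕ) * ⨆ i : ULift.{u} ℕ, #(@closure G (t i.down) (chain t S n)) :=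
        mk_iUnion_le _
      have h2 : (⋃ i, @closure G (t i) (chain t S n) : Set G) =
          ⋃ i : ULift.{u} ℕ, @closure G (t i.down) (chain t S n) := by
        ext x
        simp only [mem_iUnion]
        exact ⟨fun ⟨i, hi⟩ => ⟨⟨i⟩, hi⟩, fun ⟨i, hi⟩ => ⟨i.down, hi⟩⟩
      rw [h2]
      refine h1.trans_lt (mul_lt_of_lt hinf ?_ ?_)
      · simpa using hκ'
      · exact (ciSup_le fun i : ULift.{u} ℕ => hb i.down).trans_lt hlt
    refine (mk_subgroup_closure_le _).trans_lt (max_lt ?_ hκ')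
    refine (mk_union_le _ _).trans_lt (add_lt_of_lt hinf ?_ hU)
    exact (mk_union_le _ _).trans_lt (add_lt_of_lt hinf ih (hS n))

/-- **Main theorem.** -/
theorem exists_common_closed (hκ : IsStrongLimit #G) (hκ' : ℵ₀ < #G)
    (S : ℕ → Set G) (hS : ∀ x, ∃ n, x ∈ S n) (hSc : ∀ n, #(S n) < #G)
    (t : ℕ → TopologicalSpace G) (ht : ∀ i, @IsTopologicalAddGroup G (t i) _)
    (hT : ∀ i, @T2Space G (t i)) :
    ∃ D : Set G, D.Infinite ∧ D.Countable ∧ ∀ E ⊆ D, ∀ i, IsClosed[t i] E := by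
  obtain ⟨x, hx⟩ := exists_seq (H := chain t S) (N := fun i => {U : Set G | U ∈ @nhds G (t i) 0})
    (chain_mono t S) (chain_cov t S hS)
    (fun n => not_synd_of_card hκ' _ (chain_card hκ hκ' t hT S hSc n))
    (fun i => nb_nhds (t i) (ht i))
    (fun i n x hx => cl_nhds (t i) (ht i) _ x (chain_cl t S i n x hx))
  refine ⟨Set.range x, infinite_range (t 0) x (hx 0), Set.countable_range x, ?_⟩
  intro E hE i
  exact closed_of_seq (t i) (ht i) (hT i) x (hx i) E hE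

end Pool.Agent.Y586.CT
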